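import Pool.Agent.FMV.NestedWord

/-!
Four-move equivalence of two-component links: closures of three-string diagrams of tangles.
-/

namespace Pool.Agent.Results.MP_e7515d_gt.NestedThreeString

open Pool.Agent.FMV

/-- Let `Y` be a three-string diagram built from arbitrarily many two-tangles without closed
components of the class `Built 2` (which contains all algebraic tangles and many others). If its
closure is a link with exactly two components (that is, if it has exactly four colourings with
two colours), it is four-move equivalent to the unlink or to the Hopf link. -/
theorem result {Y : Word} (hY : Built 3 Y) (h : colorings (closure Y) [] [] = 4) :
    FourEquiv 0 0 (closure Y) unlink ∨ FourEquiv 0 0 (closure Y) hopf :=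
  hY.closure h

end Pool.Agent.Results.MP_e7515d_gt.NestedThreeString
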