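import Pool.Agent.FMV.B3.Main

/-!
Four-move equivalence of two-component links: links with a diagram of width at most six, in
particular all links with a three-bridge presentation.
-/

namespace Pool.Agent.Results.MP_e7515d_gt.WidthSix

open Pool.Agent.FMV

/-- Let `w` be a link diagram in Morse position with at most six strings at every level (for
instance a diagram with three maxima above three minima). If the link has exactly two components
(that is, if `w` has exactly four colourings with two colours), it is four-move equivalent to
the unlink or to the Hopf link. -/
theorem result (w : Word) (hw : run 0 w = some 0)
    (h6 : ∀ a b : Word, w = a ++ b → ∀ k, run 0 a = some k → k ≤ 6)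
    (hc : colorings w [] [] = 4) : FourEquiv 0 0 w unlink ∨ FourEquiv 0 0 w hopf :=
  B3.link hw h6 hc

end Pool.Agent.Results.MP_e7515d_gt.WidthSix
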